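import Pool.Agent.H51BS.Shifted

/-!
# Regular proper schemes over the integers in degrees at most `-2 dim X`
-/

set_option autoImplicit false

namespace Pool.Agent.Results.MP_c1eb4d_ag.DegreesAtMostZero

open Pool.Agent.H51BS

/-- For all `n < 0`, `J ≤ 0` and `D` the following are equivalent:

1. `Hⁱ(X_et, ℤᶜ(n))` is finitely generated for all `i ≤ J - 2 dim X` and all `X`, regular,
   connected and proper over `ℤ`, of dimension at most `D`;
2. these groups are zero;
3. `Hʲ(E, ℚ(s-n)) = 0` for all `j ≤ J` and all fields `E` of Kronecker dimension `s ≤ D`;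
4. `Hʲ(𝔽_p(t₁, …, t_{s+1}), ℚ(s+1-n))` is finite dimensional for all `j ≤ J + 1`, `s ≤ D` and
   primes `p`, and `Hʲ(ℚ(t₁, …, t_s), ℚ(s+1-n))` is finite dimensional for all `j ≤ J + 1` and
   `1 ≤ s ≤ D`. -/
theorem result (M : NegativeWeightTheory) (n J : ℤ) (D : ℕ) (hn : n < 0) (hJ : J ≤ 0) :
    [LowDegreesFG M n J D, LowDegreesZero M n J D, KronZeroShifted M n J D,
      KronFiniteShifted M n J D].TFAE :=
  main_shifted M n J D hn hJ

end Pool.Agent.Results.MP_c1eb4d_ag.DegreesAtMostZero
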