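import Pool.Agent.Q285.FM.Main

/-!
# Etale cohomology of the cycle complexes: the weight -1 of blow-ups of projective spaces

The conjecture of Flach and Morin in all weights `n ≤ -2`, for all proper regular arithmetic schemes,
is equivalent to its case of the single weight `-1` for the blow-ups of the projective spaces over the
integers along regular projective schemes; one such blow-up for each integral arithmetic scheme `U`,
along a regular projective scheme generically finite etale over `U`, is enough, and these statements
are equivalent to finite generation for all arithmetic schemes in all degrees and weights `n ≤ -2`.
-/

namespace Pool.Agent.Results.MP_c1eb4d_ag.WeightMinusOne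

open Pool.Agent.Q285.FM

universe u

theorem result (T : ArithB.{u}) (hT : IsArithB T) :
    (Q1Below T ↔ Q1BlowUps T) ∧ (Q1Below T ↔ OneBlowUp T) ∧ (Q1Below T ↔ AllBelow T) :=
  weight_shift hT

end Pool.Agent.Results.MP_c1eb4d_ag.WeightMinusOne
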